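import Mathlib

set_option autoImplicit false

namespace Pool.Agent.H.MP_325c15_al

open Matrix

/-- working form of the complete intersection property -/
def CI (S : AddSubmonoid ℕ) : Prop :=
  (∃ C, ∀ x, C ≤ x → x ∈ S) ∧ ∃ (e : ℕ) (n : Fin (e + 1) → ℕ), Function.Injective n ∧
    (∀ x, x ∈ S ↔ ∃ a : Fin (e + 1) → ℕ, x = ∑ i, a i * n i) ∧
    (∀ i, n i ≠ 0 ∧ ∀ s ∈ S, ∀ t ∈ S, s + t = n i → s = 0 ∨ t = 0) ∧
    ∃ σ : Fin e → (Fin (e + 1) → ℕ) × (Fin (e + 1) → ℕ), ∀ a b,
      addConGen (fun u v => ∃ k, σ k = (u, v)) a b ↔ ∑ i, a i * n i = ∑ i, b i * n i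

/-- sums of two nonzero elements -/
def Dec (S : AddSubmonoid ℕ) (β : ℕ) : Prop :=
  ∃ s ∈ S, ∃ t ∈ S, s ≠ 0 ∧ t ≠ 0 ∧ β = s + t

/-- membership of an integer -/
def Mem (S : AddSubmonoid ℕ) (z : ℤ) : Prop := ∃ s ∈ S, (s : ℤ) = z

theorem mem_nat (S : AddSubmonoid ℕ) (x : ℕ) : Mem S x ↔ x ∈ S :=
  ⟨fun ⟨s, hs, h⟩ => by rwa [← Nat.cast_injective h], fun h => ⟨x, h, rfl⟩⟩

/-- gluing with the naturals -/
def glue (S : AddSubmonoid ℕ) (q β : ℕ) : AddSubmonoid ℕ where
  carrier := {x | ∃ s ∈ S, ∃ c, x = q * s + β * c}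
  zero_mem' := ⟨0, S.zero_mem, 0, by simp⟩
  add_mem' := by
    rintro _ _ ⟨s, hs, c, rfl⟩ ⟨t, ht, c', rfl⟩
    exact ⟨s + t, S.add_mem hs ht, c + c', by ring⟩

theorem mul_mem (S : AddSubmonoid ℕ) {β : ℕ} (h : β ∈ S) (c : ℕ) : β * c ∈ S := by
  have := S.nsmul_mem h c
  rwa [smul_eq_mul, mul_comm] at this

theorem mem_glue (S : AddSubmonoid ℕ) {q β : ℕ} (hq : 0 < q) (hβ : β ∈ S) (hc : Nat.Coprime q β)
    (y w : ℤ) : Mem (glue S q β) (q * y + β * w) ↔ Mem S (y + β * (w / q)) := by
  have hq' : (0 : ℤ) < q := by exact_mod_cast hq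
  constructor
  · rintro ⟨_, ⟨s, hs, c, rfl⟩, h⟩
    push_cast at h
    have h1 : (q : ℤ) ∣ β * (w - c) := ⟨s - y, by linear_combination -h⟩
    obtain ⟨t, ht⟩ := (Nat.isCoprime_iff_coprime.2 hc).dvd_of_dvd_mul_left h1
    have hw : w = c + q * t := by linear_combination ht
    have hs' : (s : ℤ) = y + β * t := by
      apply mul_left_cancel₀ hq'.ne'
      rw [hw] at h
      linear_combination h
    refine ⟨s + β * (c / q), S.add_mem hs (mul_mem S hβ _), ?_⟩
    rw [hw, Int.add_mul_ediv_left _ _ hq'.ne']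
    push_cast
    rw [hs']; ring
  · rintro ⟨s, hs, h⟩
    refine ⟨_, ⟨s, hs, (w % q).toNat, rfl⟩, ?_⟩
    push_cast
    rw [Int.toNat_of_nonneg (Int.emod_nonneg _ hq'.ne'), h]
    have := Int.mul_ediv_add_emod w q
    linear_combination (β : ℤ) * this

theorem CI_glue {S : AddSubmonoid ℕ} (h : CI S) {q β : ℕ} (hq : 2 ≤ q) (hβ : Dec S β)
    (hc : Nat.Coprime q β) : CI (glue S q β) := by
  obtain ⟨⟨C, hC⟩, e, n, hinj, hgen, hirr, σ, hσ⟩ := h
  obtain ⟨s1, hs1, s2, hs2, h1, h2, hβ⟩ := hβ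
  have hβS : β ∈ S := hβ ▸ S.add_mem hs1 hs2
  have hβ0 : 0 < β := by omega
  have hnd : ¬ q ∣ β := fun h => by
    have := Nat.Coprime.eq_one_of_dvd hc h
    omega
  obtain ⟨b, hb⟩ := (hgen β).1 hβS
  have hsum : ∀ (r : ℕ) (a : Fin (e + 1) → ℕ),
      ∑ i, vecCons r a i * vecCons β (fun i => q * n i) i = q * (∑ i, a i * n i) + β * r := by
    intro r a
    rw [Fin.sum_univ_succ, Finset.mul_sum]
    simp only [cons_val_zero, cons_val_succ]
    rw [add_comm, mul_comm r]
    congr 1
    exact Finset.sum_congr rfl fun i _ => by ring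
  refine ⟨⟨q * C + β * q, fun x hx => ?_⟩, e + 1, vecCons β (fun i => q * n i), ?_, ?_, ?_,
    vecCons (vecCons q 0, vecCons 0 b) (fun k => (vecCons 0 (σ k).1, vecCons 0 (σ k).2)), ?_⟩
  · obtain ⟨u, v, huv⟩ := Nat.isCoprime_iff_coprime.2 hc
    have hq' : (0 : ℤ) < q := by exact_mod_cast (by omega : 0 < q)
    rw [← mem_nat]
    have hx' : (x : ℤ) = q * (u * x) + β * (v * x) := by linear_combination -(x : ℤ) * huv
    rw [hx', mem_glue S (by omega) hβS hc]
    have h3 := Int.mul_ediv_add_emod (v * x) q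
    have h4 := Int.emod_lt_of_pos (v * x) hq'
    have hx2 : (q : ℤ) * C + β * q ≤ x := by exact_mod_cast hx
    have h5 : (C : ℤ) ≤ u * x + β * (v * x / q) := by
      apply le_of_mul_le_mul_left _ hq'
      have : (β : ℤ) * (v * x % q) ≤ β * q := by gcongr
      nlinarith
    obtain ⟨m, hm⟩ := Int.eq_ofNat_of_zero_le (le_trans (Nat.cast_nonneg C) h5)
    rw [hm, mem_nat]
    apply hC
    rw [hm] at h5
    exact_mod_cast h5
  · intro i j hij
    induction i using Fin.cases with
    | zero =>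
      induction j using Fin.cases with
      | zero => rfl
      | succ j => exact absurd ⟨n j, by simpa using hij⟩ hnd
    | succ i =>
      induction j using Fin.cases with
      | zero => exact absurd ⟨n i, by simpa using hij.symm⟩ hnd
      | succ j =>
        simp only [cons_val_succ] at hij
        rw [hinj (Nat.eq_of_mul_eq_mul_left (by omega) hij)]
  · intro x
    constructor
    · rintro ⟨s, hs, c, rfl⟩
      obtain ⟨a, rfl⟩ := (hgen s).1 hs
      exact ⟨vecCons c a, (hsum c a).symm⟩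
    · rintro ⟨a, rfl⟩
      rw [← cons_head_tail a, hsum]
      exact ⟨_, (hgen _).2 ⟨_, rfl⟩, _, rfl⟩
  · intro i
    induction i using Fin.cases with
    | zero =>
      refine ⟨by simpa using hβ0.ne', ?_⟩
      rintro _ ⟨s, -, c, rfl⟩ _ ⟨t, -, c', rfl⟩ h
      simp only [cons_val_zero] at h
      rcases c with _ | c
      · rcases c' with _ | c'
        · exact absurd ⟨s + t, by rw [← h]; ring⟩ hnd
        · left
          have : β * (c' + 1) = β * c' + β := by ring
          omega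
      · right
        have : β * (c + 1) = β * c + β := by ring
        omega
    | succ i =>
      refine ⟨by simpa using ⟨by omega, (hirr i).1⟩, ?_⟩
      rintro _ ⟨s, hs, c, rfl⟩ _ ⟨t, ht, c', rfl⟩ h
      simp only [cons_val_succ] at h
      have h3 : q ∣ β * (c + c') := by
        have h4 : q * (s + t) + β * (c + c') = q * n i := by rw [← h]; ring
        exact (Nat.dvd_add_right (Dvd.intro _ rfl)).1 (h4 ▸ Dvd.intro _ rfl)
      obtain ⟨m, hm⟩ := hc.dvd_of_dvd_mul_left h3
      have h5 : s + t + β * m = n i := by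
        apply Nat.eq_of_mul_eq_mul_left (by omega : 0 < q)
        rw [← h]
        calc q * (s + t + β * m) = q * s + q * t + β * (q * m) := by ring
          _ = _ := by rw [← hm]; ring
      rcases m with _ | m
      · have hc0 : c = 0 := by omega
        have hc1 : c' = 0 := by omega
        rcases (hirr i).2 s hs t ht (by simpa using h5) with rfl | rfl
        · left; simp [hc0]
        · right; simp [hc1]
      · exfalso
        have h6 : β * (m + 1) = β * m + β := by ring
        rcases (hirr i).2 s1 hs1 (s2 + (s + t + β * m))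
          (S.add_mem hs2 (S.add_mem (S.add_mem hs ht) (mul_mem S hβS m))) (by omega) with h | h
        · exact h1 h
        · omega
  · set c := addConGen (fun u v => ∃ k, vecCons (vecCons q 0, vecCons 0 b)
      (fun k => (vecCons 0 (σ k).1, vecCons 0 (σ k).2)) k = (u, v)) with hcdef
    have hA : ∀ a a' : Fin (e + 1) → ℕ, ∑ i, a i * n i = ∑ i, a' i * n i →
        c (vecCons 0 a) (vecCons 0 a') := by
      intro a a' h
      rw [← hσ] at h
      induction h with
      | of u v h =>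
        obtain ⟨k, hk⟩ := h
        exact AddConGen.Rel.of _ _ ⟨k.succ, by simp [hk]⟩
      | refl => exact c.refl _
      | symm _ ih => exact c.symm ih
      | trans _ _ ih ih' => exact c.trans ih ih'
      | add _ _ ih ih' => simpa using c.add ih ih'
    have hB : ∀ (r : ℕ) (a : Fin (e + 1) → ℕ),
        c (vecCons r a) (vecCons (r % q) (a + (r / q) • b)) := by
      intro r a
      have h0 : c (vecCons q 0) (vecCons 0 b) := AddConGen.Rel.of _ _ ⟨0, rfl⟩
      have h3 := c.add (c.refl (vecCons (r % q) a)) (c.nsmul (r / q) h0)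
      simp only [smul_cons, cons_add_cons, smul_eq_mul, mul_zero, add_zero, smul_zero] at h3
      rwa [mul_comm, Nat.mod_add_div] at h3
    have hle : ∀ a a', c a a' → ∑ i, a i * vecCons β (fun i => q * n i) i =
        ∑ i, a' i * vecCons β (fun i => q * n i) i := by
      intro a a' h
      induction h with
      | of u v h =>
        obtain ⟨k, hk⟩ := h
        induction k using Fin.cases with
        | zero =>
          simp only [cons_val_zero, Prod.mk.injEq] at hk
          rw [← hk.1, ← hk.2, hsum, hsum, ← hb]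
          simp [mul_comm]
        | succ k =>
          simp only [cons_val_succ, Prod.mk.injEq] at hk
          rw [← hk.1, ← hk.2, hsum, hsum, (hσ _ _).1 (AddConGen.Rel.of _ _ ⟨k, rfl⟩)]
      | refl => rfl
      | symm _ ih => exact ih.symm
      | trans _ _ ih ih' => exact ih.trans ih'
      | add _ _ ih ih' => simp only [Pi.add_apply, add_mul, Finset.sum_add_distrib, ih, ih']
    intro a a'
    refine ⟨hle a a', fun h => ?_⟩
    rw [← cons_head_tail a, ← cons_head_tail a'] at h ⊢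
    generalize vecHead a = r at *
    generalize vecHead a' = r' at *
    generalize vecTail a = u at *
    generalize vecTail a' = u' at *
    have h3 := ((hle _ _ (hB r u)).symm.trans h).trans (hle _ _ (hB r' u'))
    rw [hsum, hsum] at h3
    have h4 : r % q = r' % q := by
      have h5 : β * (r % q) ≡ β * (r' % q) [MOD q] := by
        have := congrArg (· % q) h3
        simp only [Nat.mul_add_mod] at this
        exact this
      have h6 := Nat.ModEq.cancel_left_of_coprime hc h5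
      simpa [Nat.ModEq] using h6
    rw [h4] at h3
    have h5 := hA _ _ (Nat.eq_of_mul_eq_mul_left (by omega) (Nat.add_right_cancel h3))
    have h6 := c.add (c.refl (vecCons (r' % q) 0)) h5
    simp only [cons_add_cons, add_zero, zero_add] at h6
    exact c.trans (hB r u) (c.trans (h4 ▸ h6) (c.symm (hB r' u')))

theorem CI_top : CI ⊤ := by
  refine ⟨⟨0, fun _ _ => trivial⟩, 0, fun _ => 1, fun i j _ => Subsingleton.elim (α := Fin 1) _ _,
    fun x => ⟨fun _ => ⟨fun _ => x, by simp⟩, fun _ => trivial⟩,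
    fun i => ⟨one_ne_zero, fun s _ t _ h => by simp only at h; omega⟩, Fin.elim0,
    fun a b => ⟨fun h => ?_, fun h => ?_⟩⟩
  · induction h with
    | of u v h => exact h.elim fun k _ => k.elim0
    | refl => rfl
    | symm _ ih => exact ih.symm
    | trans _ _ ih ih' => exact ih.trans ih'
    | add _ _ ih ih' => simp only [Pi.add_apply, add_mul, Finset.sum_add_distrib, ih, ih']
  · obtain rfl : a = b := by
      funext i
      obtain rfl : i = 0 := Subsingleton.elim (α := Fin 1) _ _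
      simpa using h
    exact AddCon.refl _ _

/-- functions built from linear ones by sums and rounding down -/
inductive Ch : (ℤ → ℤ) → Prop
  | lin (a : ℤ) : Ch (fun x => a * x)
  | add {f g : ℤ → ℤ} : Ch f → Ch g → Ch (fun x => f x + g x)
  | fl {f : ℤ → ℤ} (q : ℕ) : 0 < q → Ch f → Ch (fun x => f x / q)

theorem Ch.zero {f : ℤ → ℤ} (h : Ch f) : f 0 = 0 := by
  induction h with
  | lin a => simp
  | add _ _ ih ih' => simp [ih, ih']
  | fl q _ _ ih => simp [ih]

theorem Ch.congr {f g : ℤ → ℤ} (h : Ch f) (e : ∀ x, g x = f x) : Ch g := by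
  rwa [show g = f from funext e]

theorem Ch.smul {f : ℤ → ℤ} (h : Ch f) (m : ℕ) : Ch (fun x => m * f x) := by
  induction m with
  | zero => exact (Ch.lin 0).congr (by simp)
  | succ m ih => exact (ih.add h).congr fun x => by push_cast; ring

theorem Ch.subst {G U : ℤ → ℤ} (hG : Ch G) (hU : Ch U) (n : ℤ) :
    ∃ M0 : ℕ, ∀ M : ℕ, M0 ≤ M → Ch (fun x => G (x - n * U x) + M * U x) := by
  induction hG with
  | lin a =>
    refine ⟨(a * n).toNat, fun M hM => ?_⟩
    obtain ⟨m, hm⟩ := Int.eq_ofNat_of_zero_le (show 0 ≤ (M : ℤ) - a * n by omega)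
    exact ((Ch.lin a).add (hU.smul m)).congr fun x => by rw [← hm]; ring
  | add _ _ ih ih' =>
    obtain ⟨M1, h1⟩ := ih
    obtain ⟨M2, h2⟩ := ih'
    refine ⟨M1 + M2, fun M hM => ?_⟩
    obtain ⟨m, rfl⟩ := Nat.exists_eq_add_of_le (show M1 ≤ M by omega)
    exact ((h1 M1 le_rfl).add (h2 m (by omega))).congr fun x => by push_cast; ring
  | fl q hq _ ih =>
    obtain ⟨M1, h1⟩ := ih
    refine ⟨M1, fun M hM => ?_⟩
    refine ((h1 (q * M) (by nlinarith)).fl q hq).congr fun x => ?_
    push_cast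
    rw [mul_assoc, Int.add_mul_ediv_left _ _ (by exact_mod_cast hq.ne')]

theorem bound (f : ℤ → ℤ) (R M0 : ℕ) :
    ∃ M : ℕ, M0 < M ∧ ∀ x : ℕ, x ≤ R → |f x| < M := by
  induction R with
  | zero => exact ⟨M0 + (f 0).natAbs + 1, by omega, fun x hx => by
      obtain rfl : x = 0 := by omega
      simp only [Nat.cast_zero, Int.abs_eq_natAbs]; omega⟩
  | succ R ih =>
    obtain ⟨M, h1, h2⟩ := ih
    refine ⟨M + (f (R + 1 : ℕ)).natAbs + 1, by omega, fun x hx => ?_⟩
    rcases Nat.lt_or_ge x (R + 1) with h | h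
    · have := h2 x (by omega)
      omega
    · obtain rfl : x = R + 1 := by omega
      simp only [Int.abs_eq_natAbs]; omega

theorem sep (T : AddSubmonoid ℕ) (N : ℕ) : ∀ b : ℤ,
    b ∉ AddSubmonoid.closure {z : ℤ | ∃ t ∈ T, t ≤ N ∧ z = t} →
    ∃ G, Ch G ∧ (∀ t ∈ T, t ≤ N → 0 ≤ G (t : ℕ)) ∧ G b < 0 := by
  induction N with
  | zero =>
    intro b hb
    have h0 : b ≠ 0 := fun h => hb (h ▸ AddSubmonoid.zero_mem _)
    refine ⟨_, Ch.lin (-b), fun t _ ht => ?_, ?_⟩
    · obtain rfl : t = 0 := by omega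
      simp
    · have := mul_self_pos.2 h0
      linarith
  | succ N ih =>
    intro b hb
    have hmono : AddSubmonoid.closure {z : ℤ | ∃ t ∈ T, t ≤ N ∧ z = t} ≤
        AddSubmonoid.closure {z : ℤ | ∃ t ∈ T, t ≤ N + 1 ∧ z = t} :=
      AddSubmonoid.closure_mono fun z ⟨t, h1, h2, h3⟩ => ⟨t, h1, by omega, h3⟩
    by_cases hn : N + 1 ∈ T
    · have Q : ∀ k : ℕ, ∀ U, Ch U → U (N + 1 : ℕ) = 1 → (∀ t ∈ T, t ≤ N → U (t : ℕ) = 0) →
          U b < k → ∃ G, Ch G ∧ (∀ t ∈ T, t ≤ N + 1 → 0 ≤ G (t : ℕ)) ∧ G b < 0 := by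
        intro k
        induction k with
        | zero =>
          intro U h1 h2 h3 h4
          refine ⟨U, h1, fun t ht ht' => ?_, h4⟩
          rcases Nat.lt_or_ge t (N + 1) with h | h
          · rw [h3 t ht (by omega)]
          · obtain rfl : t = N + 1 := by omega
            rw [h2]; exact zero_le_one
        | succ k ihk =>
          intro U h1 h2 h3 h4
          by_cases h5 : U b < k
          · exact ihk U h1 h2 h3 h5
          have h6 : U b = k := by push_cast at h4; omega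
          obtain ⟨G, g1, g2, g3⟩ := ih (b - (N + 1 : ℕ) * k) fun h => hb (by
            have h7 := AddSubmonoid.nsmul_mem _ (AddSubmonoid.subset_closure
              (s := {z : ℤ | ∃ t ∈ T, t ≤ N + 1 ∧ z = t}) ⟨N + 1, hn, le_rfl, rfl⟩) k
            have h8 := AddSubmonoid.add_mem _ (hmono h) h7
            convert h8 using 1
            simp only [nsmul_eq_mul]; ring)
          obtain ⟨M0, hM0⟩ := g1.subst h1 (N + 1 : ℕ)
          obtain ⟨M, hM1, hM2⟩ := bound G N M0
          have hM : (0 : ℤ) < M := by exact_mod_cast (by omega : 0 < M)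
          refine ihk _ ((hM0 M hM1.le).fl M (by omega)) ?_ (fun t ht ht' => ?_) ?_
          · simp only [h2, mul_one, sub_self, g1.zero, zero_add]
            exact Int.ediv_self hM.ne'
          · simp only [h3 t ht ht', mul_zero, sub_zero, add_zero]
            exact Int.ediv_eq_zero_of_lt (g2 t ht ht') (lt_of_abs_lt (hM2 t ht'))
          · simp only [h6]
            rw [Int.ediv_lt_iff_lt_mul hM]
            linarith
      have hN : (0 : ℤ) < (N + 1 : ℕ) := by positivity
      refine Q ((1 * b / (N + 1 : ℕ)).toNat + 1) _ ((Ch.lin 1).fl (N + 1) (by omega)) ?_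
        (fun t _ ht => ?_) (by push_cast; omega)
      · simp only [one_mul]; exact Int.ediv_self hN.ne'
      · simp only [one_mul]
        exact Int.ediv_eq_zero_of_lt (by positivity) (by exact_mod_cast (by omega : t < N + 1))
    · obtain ⟨G, g1, g2, g3⟩ := ih b fun h => hb (hmono h)
      refine ⟨G, g1, fun t ht ht' => g2 t ht ?_, g3⟩
      by_contra h
      obtain rfl : t = N + 1 := by omega
      exact hn ht

theorem sepAll (T : AddSubmonoid ℕ) (R : ℕ) (K : ℕ) (hK : K ≤ R + 1) :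
    ∃ f, Ch f ∧ (∀ t ∈ T, t ≤ R → 0 ≤ f (t : ℕ)) ∧ ∀ g : ℕ, g < K → g ∉ T → f g < 0 := by
  induction K with
  | zero => exact ⟨_, Ch.lin 0, by simp, by simp⟩
  | succ K ih =>
    obtain ⟨f, f1, f2, f3⟩ := ih (by omega)
    by_cases hKT : K ∈ T
    · refine ⟨f, f1, f2, fun g hg hg' => f3 g ?_ hg'⟩
      by_contra h
      obtain rfl : g = K := by omega
      exact hg' hKT
    obtain ⟨G, g1, g2, g3⟩ := sep T R K fun h => hKT (by
      rw [← mem_nat]
      refine AddSubmonoid.closure_induction (motive := fun z _ => Mem T z) ?_ ⟨0, T.zero_mem, rfl⟩ ?_ h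
      · rintro _ ⟨t, ht, -, rfl⟩
        exact ⟨t, ht, rfl⟩
      · rintro _ _ - - ⟨s, hs, rfl⟩ ⟨t, ht, rfl⟩
        exact ⟨s + t, T.add_mem hs ht, by push_cast; rfl⟩)
    obtain ⟨M1, m1, m2⟩ := bound f R 0
    obtain ⟨M2, m3, m4⟩ := bound G R 0
    have p1 : (0 : ℤ) < M1 := by exact_mod_cast m1
    have p2 : (0 : ℤ) < M2 := by exact_mod_cast m3
    refine ⟨_, (f1.fl M1 m1).add (g1.fl M2 m3), fun t ht ht' =>
      add_nonneg (Int.ediv_nonneg (f2 t ht ht') p1.le) (Int.ediv_nonneg (g2 t ht ht') p2.le),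
      fun g hg hg' => ?_⟩
    have a1 : f g / M1 < 1 := by
      rw [Int.ediv_lt_iff_lt_mul p1, one_mul]; exact lt_of_abs_lt (m2 g (by omega))
    have a2 : G g / M2 < 1 := by
      rw [Int.ediv_lt_iff_lt_mul p2, one_mul]; exact lt_of_abs_lt (m4 g (by omega))
    rcases Nat.lt_or_ge g K with h | h
    · have := Int.ediv_neg_of_neg_of_pos (f3 g h hg') p1
      omega
    · obtain rfl : g = K := by omega
      have := Int.ediv_neg_of_neg_of_pos g3 p2
      omega

theorem realize {f : ℤ → ℤ} (hf : Ch f) (R : ℕ) : ∀ (S : AddSubmonoid ℕ), CI S → ∀ β, Dec S β →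
    ∃ S', CI S' ∧ ∃ α : ℕ, 0 < α ∧ ∃ d : ℤ, ∀ x : ℕ, x ≤ R → ∀ y : ℤ,
      (Mem S' (α * y + d * x) ↔ Mem S (y + β * f x)) := by
  induction hf with
  | lin a =>
    intro S hS β _
    exact ⟨S, hS, 1, one_pos, β * a, fun x _ y => by simp [mul_assoc]⟩
  | @add f g _ hg ih ih' =>
    intro S hS β hβ
    obtain ⟨S1, c1, α1, p1, d1, e1⟩ := ih' S hS β hβ
    have hm : ∀ s ∈ S, α1 * s ∈ S1 := fun s hs => by
      have := (e1 0 (Nat.zero_le _) s).2 (by simpa [hg.zero, mem_nat] using hs)
      rw [← mem_nat]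
      simpa using this
    obtain ⟨s, hs, t, ht, s0, t0, hβ⟩ := hβ
    obtain ⟨S2, c2, α2, p2, d2, e2⟩ := ih S1 c1 (α1 * β)
      ⟨_, hm s hs, _, hm t ht, by positivity, by positivity, by rw [hβ, mul_add]⟩
    refine ⟨S2, c2, α2 * α1, by positivity, α2 * d1 + d2, fun x hx y => ?_⟩
    have a1 := e2 x hx (α1 * y + d1 * x)
    have a2 := e1 x hx (y + β * f x)
    push_cast at a1 ⊢
    rw [show (α2 : ℤ) * α1 * y + (α2 * d1 + d2) * x = α2 * (α1 * y + d1 * x) + d2 * x by ring, a1,
      show (α1 : ℤ) * y + d1 * x + α1 * β * f x = α1 * (y + β * f x) + d1 * x by ring, a2,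
      mul_add, add_assoc]
  | @fl f q hq hf ih =>
    intro S hS β hβ
    obtain ⟨B, -, hB⟩ := bound (fun x => f x / q) R 0
    obtain ⟨s, hs, t, ht, s0, t0, hst⟩ := id hβ
    have hβS : β ∈ S := hst ▸ S.add_mem hs ht
    obtain ⟨P, hP⟩ : ∃ P, P = β * (B * R + B + 1) := ⟨_, rfl⟩
    have hP1 : B * R + B + 2 ≤ P := by
      have : 2 * (B * R + B + 1) ≤ β * (B * R + B + 1) := Nat.mul_le_mul_right _ (by omega)
      omega
    have hc : Nat.Coprime (q * P + 1) β := by
      rw [hP, show q * (β * (B * R + B + 1)) + 1 = 1 + β * (q * (B * R + B + 1)) by ring]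
      simp
    have hβ1 : β ∈ glue S (q * P + 1) β := ⟨0, S.zero_mem, 1, by simp⟩
    obtain ⟨S2, c2, α, p2, d, e2⟩ := ih _ (CI_glue hS (q := q * P + 1) (by nlinarith) hβ hc) (β * P)
      ⟨β, hβ1, β * (P - 1), mul_mem _ hβ1 _, by omega, Nat.mul_ne_zero (by omega) (by omega), by
        obtain ⟨P', rfl⟩ : ∃ P', P = P' + 1 := ⟨P - 1, by omega⟩
        simp [mul_add, add_comm]⟩
    refine ⟨S2, c2, α * (q * P + 1), by positivity, α * B * β + d, fun x hx y => ?_⟩
    have a1 := e2 x hx ((q * P + 1 : ℕ) * y + B * β * x)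
    have a2 := mem_glue S (q := q * P + 1) (by omega) hβS hc y (P * f x + B * x)
    have a3 : (P * f x + B * x) / (q * P + 1 : ℕ) = f x / q := by
      have hq' : (0 : ℤ) < q := by exact_mod_cast hq
      have b1 := Int.mul_ediv_add_emod (f x) q
      have b2 := Int.emod_nonneg (f x) hq'.ne'
      have b3 := Int.emod_lt_of_pos (f x) hq'
      have b4 := abs_lt.1 (hB x hx)
      have b5 : (B : ℤ) * R + B + 2 ≤ P := by exact_mod_cast hP1
      have b6 : (B : ℤ) * x ≤ B * R := by gcongr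
      have b7 : f x / q ≤ B * x := by
        rcases Nat.eq_zero_or_pos x with rfl | h
        · simp [hf.zero]
        · have : (B : ℤ) * 1 ≤ B * x := by gcongr; exact_mod_cast h
          linarith [b4.2]
      have b8 : (0 : ℤ) ≤ P * (f x % q) := by positivity
      have b9 : (P : ℤ) * (f x % q) ≤ P * (q - 1) := by gcongr; omega
      generalize f x / q = k at *
      generalize f x % q = r at *
      rw [← b1, show (P : ℤ) * (q * k + r) + B * x =
        (P * r + B * x - k) + (q * P + 1 : ℕ) * k by push_cast; ring,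
        Int.add_mul_ediv_left _ _ (by positivity), Int.ediv_eq_zero_of_lt (by linarith), zero_add]
      push_cast
      linarith [b4.1]
    rw [a3] at a2
    rw [← a2]
    push_cast at a1 ⊢
    rw [show (α : ℤ) * (q * P + 1) * y + (α * B * β + d) * x =
      α * ((q * P + 1) * y + B * β * x) + d * x by ring, a1]
    exact iff_of_eq (congrArg _ (by ring))

theorem main (T : AddSubmonoid ℕ) (C : ℕ) (hC : ∀ x, C ≤ x → x ∈ T) :
    ∃ S, CI S ∧ ∃ d : ℕ, 1 ≤ d ∧ ∀ x, x ∈ T ↔ d * x ∈ S := by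
  by_cases hT : ∀ x, x ∈ T
  · exact ⟨⊤, CI_top, 1, le_rfl, fun x => ⟨fun _ => trivial, fun _ => hT x⟩⟩
  obtain ⟨f, f1, f2, f3⟩ := sepAll T (2 * C + 2) (2 * C + 3) le_rfl
  obtain ⟨S, hS, α, -, d, hd⟩ := realize f1 (2 * C + 2) ⊤ CI_top 2
    ⟨1, trivial, 1, trivial, one_ne_zero, one_ne_zero, rfl⟩
  have key : ∀ x : ℕ, x ≤ 2 * C + 2 → (x ∈ T ↔ Mem S (d * x)) := by
    intro x hx
    have := hd x hx 0
    simp only [mul_zero, zero_add] at this
    rw [this]
    constructor
    · intro h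
      have h1 := f2 x h hx
      exact ⟨2 * (f x).toNat, trivial, by push_cast; rw [Int.toNat_of_nonneg h1]⟩
    · rintro ⟨s, -, h⟩
      by_contra hx'
      have := f3 x (by omega) hx'
      omega
  have hd0 : 0 ≤ d := by
    obtain ⟨s, -, h⟩ := (key (C + 1) (by omega)).1 (hC _ (by omega))
    have h1 : (0 : ℤ) ≤ d * (C + 1 : ℕ) := h ▸ Nat.cast_nonneg s
    exact nonneg_of_mul_nonneg_left h1 (by positivity)
  obtain ⟨d, rfl⟩ := Int.eq_ofNat_of_zero_le hd0
  have key' : ∀ x : ℕ, x ≤ 2 * C + 2 → (x ∈ T ↔ d * x ∈ S) := fun x hx => by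
    rw [key x hx, ← mem_nat, Nat.cast_mul]
  refine ⟨S, hS, d, ?_, fun x => ?_⟩
  · by_contra h
    obtain rfl : d = 0 := by omega
    apply hT
    intro x
    rcases Nat.lt_or_ge x C with h | h
    · exact (key' x (by omega)).2 (by simp)
    · exact hC x h
  · induction x using Nat.strong_induction_on with
    | _ x ih =>
      rcases Nat.lt_or_ge (2 * C + 2) x with h | h
      · refine ⟨fun _ => ?_, fun _ => hC x (by omega)⟩
        obtain ⟨z, rfl⟩ : ∃ z, x = (C + 1) + z := ⟨x - (C + 1), by omega⟩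
        rw [mul_add]
        exact S.add_mem ((key' _ (by omega)).1 (hC _ (by omega)))
          ((ih z (by omega)).1 (hC _ (by omega)))
      · exact key' x h

theorem lower {e : ℕ} (n : Fin (e + 1) → ℕ) (h0 : n 0 ≠ 0)
    (τ : Finset ((Fin (e + 1) → ℕ) × (Fin (e + 1) → ℕ)))
    (h : ∀ a b, ∑ i, a i * n i = ∑ i, b i * n i → addConGen (fun u v => (u, v) ∈ τ) a b) :
    e ≤ τ.card := by
  classical
  let df : (Fin (e + 1) → ℕ) × (Fin (e + 1) → ℕ) → (Fin (e + 1) → ℚ) :=
    fun p i => (p.1 i : ℚ) - p.2 i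
  let A : Finset (Fin (e + 1) → ℚ) := insert (Pi.single 0 1) (τ.image df)
  have h1 : ∀ a b, addConGen (fun u v => (u, v) ∈ τ) a b →
      df (a, b) ∈ Submodule.span ℚ (A : Set (Fin (e + 1) → ℚ)) := by
    intro a b h
    induction h with
    | of u v h => exact Submodule.subset_span (by simp only [A]; simp; exact Or.inr ⟨u, v, h, rfl⟩)
    | refl u => convert Submodule.zero_mem _ using 1; funext i; simp [df]
    | symm _ ih => convert Submodule.neg_mem _ ih using 1; funext i; simp [df]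
    | trans _ _ ih ih' => convert Submodule.add_mem _ ih ih' using 1; funext i; simp [df]
    | add _ _ ih ih' => convert Submodule.add_mem _ ih ih' using 1; funext i; simp [df]; ring
  have h2 : Submodule.span ℚ (A : Set (Fin (e + 1) → ℚ)) = ⊤ := by
    rw [eq_top_iff, ← (Pi.basisFun ℚ (Fin (e + 1))).span_eq, Submodule.span_le]
    rintro _ ⟨i, rfl⟩
    have h3 := h1 _ _ (h (Pi.single i (n 0)) (Pi.single 0 (n i)) (by
      simp [Pi.single_apply, mul_comm]))
    have h4 : (Pi.single 0 1 : Fin (e + 1) → ℚ) ∈ Submodule.span ℚ (A : Set (Fin (e + 1) → ℚ)) :=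
      Submodule.subset_span (by simp [A])
    have h5 := Submodule.smul_mem _ ((n 0 : ℚ)⁻¹)
      (Submodule.add_mem _ h3 (Submodule.smul_mem _ (n i : ℚ) h4))
    have h6 : (n 0 : ℚ) ≠ 0 := by exact_mod_cast h0
    rw [SetLike.mem_coe]
    convert h5 using 1
    funext j
    simp only [df, Pi.basisFun_apply, Pi.single_apply, Pi.smul_apply, Pi.add_apply, smul_eq_mul]
    split_ifs <;> simp [h6]
  have h3 := finrank_span_finset_le_card (R := ℚ) A
  have h4 : A.card ≤ τ.card + 1 :=
    (Finset.card_insert_le _ _).trans (Nat.succ_le_succ Finset.card_image_le)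
  rw [Set.finrank, h2, finrank_top, Module.finrank_fin_fun] at h3
  omega

end Pool.Agent.H.MP_325c15_al
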